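import Mathlib
import Pool.Agent.H.MP_89b5f7_an.A

set_option autoImplicit false

namespace Pool.Agent.H.MP_160bbb_an

open Filter Topology Finset Real

/-- level starts -/
def J : ℕ → ℕ
  | 0 => 0
  | k + 1 => J k + 16 ^ (J k + 2)

/-- level lengths -/
def nn (k : ℕ) : ℕ := 16 ^ (J k + 2)

lemma J_succ (k : ℕ) : J (k + 1) = J k + nn k := rfl

lemma nn_pos (k : ℕ) : 0 < nn k := by unfold nn; positivity

lemma J_mono : StrictMono J := strictMono_nat_of_lt_succ fun k => by
  rw [J_succ]; linarith [nn_pos k]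

lemma J_ge (k : ℕ) : k ≤ J k := J_mono.id_le k

/-- level -/
def lev (j : ℕ) : ℕ := Nat.findGreatest (fun k => J k ≤ j) j

lemma lev_spec (j : ℕ) : J (lev j) ≤ j ∧ j < J (lev j + 1) := by
  refine ⟨Nat.findGreatest_spec (P := fun k => J k ≤ j) (Nat.zero_le j) (Nat.zero_le j), ?_⟩
  by_contra h
  exact Nat.findGreatest_is_greatest (P := fun k => J k ≤ j) (Nat.lt_succ_self _)
    ((J_mono.id_le _).trans (not_lt.1 h)) (not_lt.1 h)

lemma lev_eq {k j : ℕ} (h : J k ≤ j) (h' : j < J (k + 1)) : lev j = k :=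
  le_antisymm (Nat.lt_succ_iff.1 (J_mono.lt_iff_lt.1 ((lev_spec j).1.trans_lt h')))
    (Nat.lt_succ_iff.1 (J_mono.lt_iff_lt.1 (h.trans_lt (lev_spec j).2)))

lemma lev_top : Tendsto lev atTop atTop := tendsto_atTop_atTop.2 fun k => ⟨J k, fun j hj =>
  Nat.lt_succ_iff.1 (J_mono.lt_iff_lt.1 (hj.trans_lt (lev_spec j).2))⟩

/-- horizontal size -/
noncomputable def a (k : ℕ) : ℝ := ((2 : ℝ) ^ (4 * J k))⁻¹

/-- vertical size -/
noncomputable def b (k : ℕ) : ℝ := ((2 : ℝ) ^ k)⁻¹

lemma a_pos (k : ℕ) : 0 < a k := by unfold a; positivity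
lemma b_pos (k : ℕ) : 0 < b k := by unfold b; positivity
lemma a_le (k : ℕ) : a k ≤ b k :=
  inv_anti₀ (by positivity) (pow_le_pow_right₀ one_le_two (by linarith [J_ge k]))
lemma b_lim : Tendsto b atTop (𝓝 0) := tendsto_inv_atTop_zero.comp
  (tendsto_pow_atTop_atTop_of_one_lt one_lt_two)

/-- horizontal parts -/
noncomputable def α (i : ℕ) : ℝ :=
  if i < 4 * J (lev (i / 4)) + nn (lev (i / 4)) then a (lev (i / 4)) else 0

/-- vertical parts -/
noncomputable def β (i : ℕ) : ℝ :=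
  if i < 4 * J (lev (i / 4)) + 3 * nn (lev (i / 4)) then b (lev (i / 4)) else 0

/-- digits of the missing point -/
def χ (i : ℕ) : Fin 2 := if i = 4 * J (lev (i / 4)) + 3 * nn (lev (i / 4)) then 1 else 0

lemma lev4 {k i : ℕ} (h : 4 * J k ≤ i) (h' : i < 4 * J (k + 1)) : lev (i / 4) = k :=
  lev_eq (by omega) (by omega)

lemma num (k : ℕ) : ((2 ^ (k + 1) * (4 * J (k + 1)) : ℕ) + 2 : ℝ) * a (k + 1) <
    ((2 : ℝ) ^ (4 * J k + 3 * nn k + 1))⁻¹ := by
  have h1 : J k + 2 < 16 ^ (J k + 2) := Nat.lt_pow_self (by norm_num)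
  have h2 : 2 ^ (k + 1) ≤ nn k := (Nat.pow_le_pow_right two_pos (by
    linarith [J_ge k])).trans (Nat.pow_le_pow_left (by norm_num) _)
  have h3 : 256 ≤ nn k := Nat.pow_le_pow_right (by norm_num : 0 < 16) (Nat.le_add_left 2 (J k))
  have h4 : ∀ n, 10 ≤ n → n ^ 3 < 2 ^ n := fun n hn => by
    induction n, hn using Nat.le_induction with
    | base => norm_num
    | succ n hn ih => rw [pow_succ 2]; nlinarith [mul_le_mul_right hn (n ^ 2), mul_le_mul_right hn n]
  have h5 : (2 ^ (k + 1) * (4 * J (k + 1)) + 2) * 2 < 2 ^ nn k := by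
    refine lt_trans ?_ (h4 _ (by omega))
    have : J k ≤ nn k := by unfold nn; omega
    rw [J_succ]
    nlinarith [mul_le_mul h2 (show 4 * (J k + nn k) ≤ 8 * nn k by omega) (Nat.zero_le _)
      (Nat.zero_le _), mul_le_mul_right h3 (nn k ^ 2)]
  have h6 : ((2 ^ (k + 1) * (4 * J (k + 1)) : ℕ) + 2 : ℝ) * 2 < 2 ^ nn k := by exact_mod_cast h5
  have e : (2 : ℝ) ^ (4 * J (k + 1)) = 2 ^ (4 * J k + 3 * nn k) * 2 ^ nn k := by
    rw [← pow_add, J_succ]; congr 1; ring
  rw [a, ← div_eq_mul_inv, ← one_div, div_lt_div_iff₀ (by positivity) (by positivity), one_mul,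
    e, pow_succ (2 : ℝ)]
  nlinarith [pow_pos (two_pos : (0 : ℝ) < 2) (4 * J k + 3 * nn k)]

lemma dig_int (c : ℕ → Fin 2) (n : ℕ) :
    ∃ z : ℤ, ∑ i ∈ range n, ofDigitsTerm c i = z * ((2 : ℝ) ^ n)⁻¹ := by
  induction n with
  | zero => exact ⟨0, by simp⟩
  | succ n ih =>
    obtain ⟨z, hz⟩ := ih
    refine ⟨2 * z + (c n : ℕ), ?_⟩
    rw [sum_range_succ, hz, ofDigitsTerm]
    push_cast
    field_simp
    ring

theorem hole (σ : ℕ → ℤ) (γ : ℕ → Fin 2) (h1 : ∀ i, -1 ≤ σ i) (h2 : ∀ i, γ i = 0 → 0 ≤ σ i)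
    {h v : ℝ} (hh : Tendsto (fun N => ∑ i ∈ range N, σ i * α i) atTop (𝓝 h))
    (hv : Tendsto (fun N => ∑ i ∈ range N, σ i * β i) atTop (𝓝 v))
    (e : h + ofDigits γ = ofDigits χ) : 0 ≤ v := by
  let m : ℕ → ℤ := fun k => ∑ i ∈ Ico (4 * J k) (4 * J k + nn k), σ i
  obtain ⟨H, hH⟩ : ∃ H : ℕ → ℝ, H = fun N => ∑ i ∈ range N, σ i * α i := ⟨_, rfl⟩
  obtain ⟨V, hV⟩ : ∃ V : ℕ → ℝ, V = fun N => ∑ i ∈ range N, σ i * β i := ⟨_, rfl⟩
  rw [← hH] at hh
  rw [← hV] at hv
  have H1 : ∀ k, H (4 * J (k + 1)) = H (4 * J k) + m k * a k := fun k => by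
    have := J_succ k
    simp only [hH, m]
    rw [← sum_range_add_sum_Ico _ (show 4 * J k ≤ 4 * J (k + 1) by omega), ← sum_Ico_consecutive _
      (Nat.le_add_right _ (nn k)) (show 4 * J k + nn k ≤ 4 * J (k + 1) by omega),
      sum_eq_zero (s := Ico (4 * J k + nn k) _) fun i hi => by
        rw [mem_Ico] at hi
        rw [α, lev4 (by omega) hi.2, if_neg (by omega), mul_zero], add_zero, Int.cast_sum, sum_mul]
    congr 1
    exact sum_congr rfl fun i hi => by
      rw [mem_Ico] at hi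
      rw [α, lev4 hi.1 (by omega), if_pos hi.2]
  have V1 : ∀ k, V (4 * J k + nn k) = V (4 * J k) + m k * b k := fun k => by
    have := J_succ k
    simp only [hV, m]
    rw [← sum_range_add_sum_Ico _ (Nat.le_add_right _ (nn k)), Int.cast_sum, sum_mul]
    congr 1
    exact sum_congr rfl fun i hi => by
      rw [mem_Ico] at hi
      rw [β, lev4 hi.1 (by omega), if_pos (by omega)]
  have I1 : ∀ k, ∃ z : ℤ, H (4 * J k) = z * a k := fun k => by
    induction k with
    | zero => exact ⟨0, by simp [hH, J]⟩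
    | succ k ih =>
      obtain ⟨z, hz⟩ := ih
      refine ⟨(z + m k) * 2 ^ (4 * nn k), ?_⟩
      rw [H1, hz, a, a, J_succ, mul_add 4, pow_add]
      push_cast
      field_simp
  have tJ : Tendsto (fun k => 4 * J k) atTop atTop :=
    J_mono.tendsto_atTop.const_mul_atTop' (by norm_num)
  let θ : ℕ → ℕ := fun k => 2 ^ k * (4 * J k)
  have av : ∀ k, ((2 : ℝ) ^ (4 * J k + 3 * nn k))⁻¹ ≤ a k := fun k =>
    inv_anti₀ (by positivity) (pow_le_pow_right₀ one_le_two (by omega))
  have hf : ∀ n : ℕ, ((2 : ℝ) ^ (n + 1))⁻¹ = (2 ^ n)⁻¹ / 2 := fun n => by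
    rw [pow_succ]; field_simp
  have force : ∀ k, (∀ l, k < l → |(m l : ℝ)| ≤ θ l) → ∀ i, 4 * J k ≤ i →
      i < 4 * J k + 3 * nn k → γ i = 0 := by
    intro k hk i i1 i2
    have t1 : ∀ L, k + 1 ≤ L → |H (4 * J (L + 1)) - H (4 * J (k + 1))| ≤
        (θ (k + 1) + 1) * a (k + 1) - a L := by
      intro L hL
      induction L, hL using Nat.le_induction with
      | base =>
        rw [H1, add_sub_cancel_left, abs_mul, abs_of_pos (a_pos _)]
        nlinarith [hk (k + 1) (by omega), a_pos (k + 1)]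
      | succ L hL ih =>
        rw [H1, add_sub_right_comm]
        refine (abs_add_le _ _).trans ?_
        rw [abs_mul, abs_of_pos (a_pos _)]
        have := num L
        rw [hf] at this
        nlinarith [hk (L + 1) (by omega), a_pos (L + 1), av L, a_pos L]
    have t2 : |h - H (4 * J (k + 1))| ≤ (θ (k + 1) + 1) * a (k + 1) := by
      refine le_of_tendsto (((hh.comp (tJ.comp (tendsto_add_atTop_nat 1))).sub_const _).abs) ?_
      filter_upwards [eventually_ge_atTop (k + 1)] with L hL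
      exact (t1 L hL).trans (sub_le_self _ (a_pos L).le)
    have := J_succ k
    have := nn_pos k
    have c1 := ofDigits_eq_sum_add_ofDigits χ (4 * J (k + 1))
    rw [← sum_range_add_sum_Ico _ (show 4 * J k ≤ 4 * J (k + 1) by omega),
      sum_eq_single_of_mem (4 * J k + 3 * nn k) (mem_Ico.2 ⟨by omega, by omega⟩) fun i hi e => by
        rw [mem_Ico] at hi
        simp [ofDigitsTerm, χ, lev4 hi.1 hi.2, e], ofDigitsTerm, χ,
      lev4 (k := k) (by omega) (by omega),
      if_pos rfl] at c1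
    have c2 := ofDigits_eq_sum_add_ofDigits γ (4 * J k)
    have c3 := ofDigits_eq_sum_add_ofDigits γ (i + 1)
    rw [sum_range_succ, ← sum_range_add_sum_Ico _ i1] at c3
    obtain ⟨z1, e1⟩ := I1 k
    obtain ⟨z2, e2⟩ := dig_int χ (4 * J k)
    obtain ⟨z3, e3⟩ := dig_int γ (4 * J k)
    have n1 := num k
    have y1 := mul_le_mul_of_nonneg_left (ofDigits_le_one fun i => χ (i + 4 * J (k + 1)))
      (a_pos (k + 1)).le
    have y2 := mul_nonneg (a_pos (k + 1)).le (ofDigits_nonneg fun i => χ (i + 4 * J (k + 1)))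
    have y3 := mul_le_mul_of_nonneg_left (ofDigits_le_one fun i => γ (i + 4 * J k)) (a_pos k).le
    have y4 := mul_nonneg (a_pos k).le (ofDigits_nonneg fun i => γ (i + 4 * J k))
    have y5 : 0 ≤ (((2 : ℕ) : ℝ) ^ (i + 1))⁻¹ * ofDigits fun j => γ (j + (i + 1)) :=
      mul_nonneg (by positivity) (ofDigits_nonneg _)
    have y6 : 0 ≤ ∑ j ∈ Ico (4 * J k) i, ofDigitsTerm γ j := sum_nonneg fun _ _ => ofDigitsTerm_nonneg
    simp only [Nat.cast_ofNat, Fin.val_one, Nat.cast_one, one_mul] at c1 c2 c3 y5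
    rw [H1, e1, abs_le] at t2
    rw [e2] at c1
    rw [e3] at c2 c3
    change _ = _ + _ + a (k + 1) * _ at c1
    change _ = z3 * a k + a k * _ at c2
    change _ = z2 * a k + _ + _ at c1
    change _ = z3 * a k + _ + _ + _ at c3
    rw [hf] at c1 n1
    have := av k
    have z0 : z2 - z3 - z1 - m k = 0 := by
      have ak := a_pos k
      have q1 : ((z2 - z3 - z1 - m k : ℤ) : ℝ) < 1 := lt_of_mul_lt_mul_right (by
        push_cast; nlinarith [a_pos (k + 1)]) ak.le
      have q2 : (-1 : ℝ) < ((z2 - z3 - z1 - m k : ℤ) : ℝ) := lt_of_mul_lt_mul_right (by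
        push_cast; nlinarith [a_pos (k + 1)]) ak.le
      have q3 : z2 - z3 - z1 - m k < 1 := by exact_mod_cast q1
      have q4 : -1 < z2 - z3 - z1 - m k := by exact_mod_cast q2
      omega
    have z0' : (z2 : ℝ) = z3 + z1 + m k := by
      have : z2 = z3 + z1 + m k := by omega
      exact_mod_cast this
    rw [z0'] at c1
    by_contra hγ
    have g1 : γ i = 1 := by omega
    have g2 : ((2 : ℝ) ^ (4 * J k + 3 * nn k))⁻¹ ≤ ofDigitsTerm γ i := by
      simp only [ofDigitsTerm, g1, Fin.val_one, Nat.cast_one, one_mul, Nat.cast_ofNat]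
      exact inv_anti₀ (by positivity) (pow_le_pow_right₀ one_le_two (by omega))
    nlinarith [a_pos (k + 1)]
  have ex : ∃ k, ∀ l, k < l → |(m l : ℝ)| ≤ θ l := by
    have := ((hv.comp (tendsto_atTop_mono (fun k => Nat.le_add_right _ (nn k)) tJ)).sub
      (hv.comp tJ)).abs
    rw [sub_self, abs_zero] at this
    obtain ⟨k, hk⟩ := eventually_atTop.1 (this.eventually (gt_mem_nhds one_pos))
    refine ⟨k, fun l hl => ?_⟩
    have := hk l hl.le
    simp only [Function.comp, V1, add_sub_cancel_left, abs_mul, abs_of_pos (b_pos l)] at this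
    rw [b, ← div_eq_mul_inv, div_lt_one (by positivity)] at this
    have h3 : (1 : ℝ) ≤ (4 * J l : ℕ) := by
      exact_mod_cast (show 1 ≤ 4 * J l by linarith [J_ge l])
    simp only [θ, Nat.cast_mul, Nat.cast_pow, Nat.cast_ofNat] at h3 ⊢
    nlinarith [pow_pos (two_pos : (0 : ℝ) < 2) l]
  classical
  have k1 := Nat.find_spec ex
  have k2 := fun k => Nat.find_min ex (m := k)
  obtain ⟨k, hk⟩ : ∃ k, k = Nat.find ex := ⟨_, rfl⟩
  rw [← hk] at k1 k2
  have sg : ∀ i, 4 * J k ≤ i → i < 4 * J (lev (i / 4)) + 3 * nn (lev (i / 4)) → 0 ≤ σ i := by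
    intro i hi hi'
    have := lev_spec (i / 4)
    have h3 : k < lev (i / 4) + 1 := J_mono.lt_iff_lt.1 (by omega)
    exact h2 i (force _ (fun l hl => k1 l (by omega)) i (by omega) hi')
  have mo : ∀ N, 4 * J k + nn k ≤ N → V (4 * J k + nn k) ≤ V N := fun N hN => by
    induction N, hN using Nat.le_induction with
    | base => exact le_rfl
    | succ N hN ih =>
      refine ih.trans ?_
      simp only [hV, sum_range_succ, β, le_add_iff_nonneg_right]
      split_ifs with c
      · exact mul_nonneg (Int.cast_nonneg (sg N (by omega) c)) (b_pos _).le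
      · simp
  refine le_trans ?_ (ge_of_tendsto hv (eventually_atTop.2 ⟨_, mo⟩))
  have m0 : (0 : ℝ) ≤ m k := Int.cast_nonneg (sum_nonneg fun i hi => by
    rw [mem_Ico] at hi
    have := J_succ k
    exact sg i hi.1 (by rw [lev4 hi.1 (by omega)]; omega))
  have v0 : ∀ N : ℕ, -(N : ℝ) ≤ V N := fun N => by
    have := card_nsmul_le_sum (range N) (fun i => σ i * β i) (-1) fun i _ => by
      have b1 : 0 ≤ β i ∧ β i ≤ 1 := by
        unfold β
        split_ifs
        · exact ⟨(b_pos _).le, inv_le_one_of_one_le₀ (one_le_pow₀ one_le_two)⟩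
        · simp
      have : (-1 : ℝ) ≤ σ i := by exact_mod_cast h1 i
      nlinarith
    simpa [hV] using this
  rw [V1]
  rcases k with _ | k
  · simpa [hV, J] using mul_nonneg m0 (b_pos 0).le
  · have := k2 k (Nat.lt_succ_self k)
    push Not at this
    obtain ⟨l, l1, l2⟩ := this
    obtain rfl : l = k + 1 := by
      by_contra c
      exact l2.not_ge (k1 l (by omega))
    rw [abs_of_nonneg m0] at l2
    have := mul_lt_mul_of_pos_right l2 (b_pos (k + 1))
    simp only [θ, Nat.cast_mul, Nat.cast_pow, Nat.cast_ofNat, b] at this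
    rw [mul_comm, inv_mul_cancel_left₀ (by positivity)] at this
    have h4 := v0 (4 * J (k + 1))
    push_cast at h4
    unfold b
    linarith

end Pool.Agent.H.MP_160bbb_an
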