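import Mathlib
import Pool.Agent.H.MP_160bbb_an.A

set_option autoImplicit false

namespace Pool.Agent.H.MP_160bbb_an

open Filter Topology Finset Real Function

lemma grp {w : ℕ → ℂ} {s : ℂ} (m : ℕ) (hm : 0 < m) (h0 : Tendsto w atTop (𝓝 0))
    (h : Tendsto (fun N => ∑ g ∈ range N, ∑ c ∈ range m, w (g * m + c)) atTop (𝓝 s)) :
    Tendsto (fun N => ∑ n ∈ range N, w n) atTop (𝓝 s) := by
  have h1 : ∀ k, ∑ n ∈ range (k * m), w n = ∑ g ∈ range k, ∑ c ∈ range m, w (g * m + c) :=
    fun k => by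
      induction k with
      | zero => simp
      | succ k ih => rw [add_one_mul, sum_range_add, ih, sum_range_succ]
  have t3 : Tendsto (fun N => N / m) atTop atTop := Nat.tendsto_div_const_atTop hm.ne'
  have h2 : Tendsto (fun N => ∑ c ∈ range (N % m), w (N / m * m + c)) atTop (𝓝 0) := by
    have := tendsto_finsetSum (range m) fun c _ => (tendsto_zero_iff_norm_tendsto_zero.1 h0).comp
      ((tendsto_add_atTop_nat c).comp (t3.atTop_mul_const' hm))
    exact squeeze_zero_norm (fun N => (norm_sum_le _ _).trans (sum_le_sum_of_subset_of_nonneg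
      (range_subset_range.2 (Nat.mod_lt _ hm).le) fun _ _ _ => norm_nonneg _)) (by simpa using this)
  simpa [← h1, ← sum_range_add, Nat.div_add_mod', comp_def] using (h.comp t3).add h2

lemma nsa : ¬ Summable fun j => a (lev j) := fun h => by
  have h1 : ∀ k, ∑ j ∈ range (J k), a (lev j) = 256 * k := fun k => by
    induction k with
    | zero => simp [J]
    | succ k ih =>
      rw [J_succ, sum_range_add, ih, sum_congr rfl fun j hj => by
        rw [lev_eq (k := k) (by omega) (by rw [J_succ]; linarith [mem_range.1 hj])]]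
      simp only [sum_const, card_range, nsmul_eq_mul, nn, a, pow_mul]
      push_cast
      field_simp
      ring
  obtain ⟨k, hk⟩ := exists_nat_gt (∑' j, a (lev j))
  linarith [h.sum_le_tsum (range (J k)) fun j _ => (a_pos _).le, h1 k, k.cast_nonneg (α := ℝ)]

/-- positions -/
def pos (p : ℕ × Fin 4) : ℕ := 3 * J (lev p.1) + p.2 * nn (lev p.1) + p.1

lemma lev_pos (p : ℕ × Fin 4) : lev (pos p / 4) = lev p.1 := by
  have := lev_spec p.1
  have := J_succ (lev p.1)
  have := Nat.mul_le_mul_right (nn (lev p.1)) (Nat.le_of_lt_succ p.2.2)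
  exact lev4 (by unfold pos; omega) (by unfold pos; omega)

lemma pos_bij : Bijective pos := by
  refine ⟨fun p q e => ?_, fun i => ?_⟩
  · have h : lev p.1 = lev q.1 := by rw [← lev_pos, e, lev_pos]
    obtain ⟨j, t⟩ := p
    obtain ⟨l, u⟩ := q
    have h1 := lev_spec j
    have := lev_spec l
    have := J_succ (lev l)
    simp only [pos] at e h
    rw [h] at e h1
    fin_cases t <;> fin_cases u <;> simp at e ⊢ <;> omega
  · have := lev_spec (i / 4)
    have := J_succ (lev (i / 4))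
    obtain ⟨t, t1, t2⟩ : ∃ t : Fin 4, 4 * J (lev (i / 4)) + t * nn (lev (i / 4)) ≤ i ∧
        i < 4 * J (lev (i / 4)) + t * nn (lev (i / 4)) + nn (lev (i / 4)) := by
      simp only [Fin.exists_fin_succ, Fin.val_zero, Fin.val_succ, IsEmpty.exists_iff]
      omega
    refine ⟨(i - 3 * J (lev (i / 4)) - t * nn (lev (i / 4)), t), ?_⟩
    simp only [pos]
    rw [lev_eq (k := lev (i / 4)) (by omega) (by omega)]
    omega

/-- the big moves -/
noncomputable def w (i : ℕ) : ℂ := α i + β i * Complex.I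

lemma w_pos (j : ℕ) : w (pos (j, 0)) = a (lev j) + b (lev j) * Complex.I ∧
    w (pos (j, 1)) = b (lev j) * Complex.I ∧ w (pos (j, 2)) = b (lev j) * Complex.I ∧
    w (pos (j, 3)) = 0 := by
  have := lev_spec j
  have := J_succ (lev j)
  simp only [w, α, β, lev_pos]
  simp only [pos]
  refine ⟨?_, ?_, ?_, ?_⟩
  · rw [if_pos (by simp; omega), if_pos (by simp; omega)]
  · rw [if_neg (by simp; omega), if_pos (by simp; omega)]; simp
  · rw [if_neg (by simp; omega), if_pos (by simp; omega)]; simp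
  · rw [if_neg (by simp; omega), if_neg (by simp; omega)]; simp

lemma w_lim : Tendsto w atTop (𝓝 0) := by
  have := (b_lim.comp (lev_top.comp (Nat.tendsto_div_const_atTop four_ne_zero))).const_mul 2
  rw [mul_zero] at this
  refine squeeze_zero_norm (fun i => (Complex.norm_le_abs_re_add_abs_im _).trans ?_) this
  have := a_le (lev (i / 4))
  have := a_pos (lev (i / 4))
  have := b_pos (lev (i / 4))
  simp only [w, α, β, comp]
  split_ifs <;> simp [abs_of_pos, *] <;> linarith

/-- cancelling pairs -/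
noncomputable def y (n : ℕ) : ℂ := if n % 3 = 0 then w (n / 3) else if n % 3 = 1 then -w (n / 3)
  else 0

lemma y_lim : Tendsto y atTop (𝓝 0) := by
  refine squeeze_zero_norm (fun n => ?_) (tendsto_zero_iff_norm_tendsto_zero.1
    (w_lim.comp (Nat.tendsto_div_const_atTop three_ne_zero)))
  unfold y
  split_ifs <;> simp

lemma y3 (i : ℕ) : y (i * 3) = w i ∧ y (i * 3 + 1) = -w i ∧ y (i * 3 + 2) = 0 := by
  unfold y
  rw [if_pos (by omega), if_neg (by omega), if_pos (by omega), if_neg (by omega),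
    if_neg (by omega), show i * 3 / 3 = i by omega, show (i * 3 + 1) / 3 = i by omega]
  simp

/-- slot table -/
def τ (p : Fin 2 × Fin 6) : Fin 4 × Fin 3 :=
  ![![(0, 0), (1, 1), (2, 0), (3, 0), (0, 2), (1, 2)],
    ![(0, 1), (1, 0), (2, 1), (3, 1), (2, 2), (3, 2)]] p.1 p.2

/-- regrouping -/
def Φ : ℕ × Fin 6 → ℕ := (Nat.divModEquiv 3).symm ∘ Prod.map pos id ∘
  (Equiv.prodAssoc _ _ _).symm ∘ Prod.map id τ ∘ Equiv.prodAssoc _ _ _ ∘
  Prod.map (Nat.divModEquiv 2) id

lemma Φ_bij : Bijective Φ :=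
  (Equiv.bijective _).comp <| (pos_bij.prodMap bijective_id).comp <| (Equiv.bijective _).comp <|
    (bijective_id.prodMap (by decide)).comp <| (Equiv.bijective _).comp <|
    (Equiv.bijective _).prodMap bijective_id

lemma yΦ (g : ℕ) : y (Φ (g, 0)) = (-1) ^ g * (a (lev (g / 2)) + b (lev (g / 2)) * Complex.I) ∧
    y (Φ (g, 1)) = -((-1) ^ g * b (lev (g / 2)) * Complex.I) ∧
    y (Φ (g, 2)) = (-1) ^ g * b (lev (g / 2)) * Complex.I ∧
    y (Φ (g, 3)) = 0 ∧ y (Φ (g, 4)) = 0 ∧ y (Φ (g, 5)) = 0 := by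
  have e : ∀ c, Φ (g, c) = pos (g / 2, (τ (Fin.ofNat 2 g, c)).1) * 3 +
    (τ (Fin.ofNat 2 g, c)).2 := fun c => rfl
  obtain ⟨j, rfl | rfl⟩ := Nat.even_or_odd' g
  · have : Fin.ofNat 2 (2 * j) = 0 := Fin.ext (by simp)
    simp only [e, this]
    simp [τ, y3, w_pos]
  · have : Fin.ofNat 2 (2 * j + 1) = 1 := Fin.ext (by simp)
    simp only [e, this]
    simp [τ, y3, w_pos, pow_succ, show (2 * j + 1) / 2 = j by omega]

lemma mix (μ ρ : Equiv.Perm ℕ) : ∃ σ : Equiv.Perm ℕ, ∀ (g : ℕ) (c : Fin 6),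
    σ (g * 6 + c) = Φ ((if c = 2 then ρ else μ) g, c) := by
  refine ⟨(Nat.divModEquiv 6).trans ((Equiv.prodCongrLeft fun c : Fin 6 =>
    if c = 2 then ρ else μ).trans (Equiv.ofBijective Φ Φ_bij)), fun g c => ?_⟩
  have : Nat.divModEquiv 6 (g * 6 + c) = (g, c) := (Nat.divModEquiv 6).apply_symm_apply (g, c)
  rw [Equiv.trans_apply, this, Equiv.trans_apply, Equiv.prodCongrLeft_apply, Equiv.ofBijective_apply]

theorem sr (s : ℂ) : ∃ σ : Equiv.Perm ℕ, Tendsto (fun N => ∑ n ∈ range N, y (σ n)) atTop (𝓝 s) := by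
  have b0 := b_lim.comp lev_top
  obtain ⟨μ, hμ⟩ := MP_89b5f7_an.riemann (a := fun j => a (lev j)) (fun j => a_pos _)
    (squeeze_zero (fun j => (a_pos _).le) (fun j => a_le _) b0) nsa s.re
  obtain ⟨ρ, hρ⟩ := MP_89b5f7_an.riemann (a := fun j => b (lev j)) (fun j => b_pos _) b0
    (fun h => nsa (h.of_nonneg_of_le (fun j => (a_pos _).le) fun j => a_le _)) s.im
  obtain ⟨σ, e⟩ := mix μ ρ
  refine ⟨σ, grp 6 (by norm_num) (y_lim.comp σ.injective.nat_tendsto_atTop) ?_⟩
  rw [← Complex.re_add_im s]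
  refine (hμ.ofReal.add (hρ.ofReal.mul_const Complex.I)).congr fun N => ?_
  push_cast
  rw [sum_mul, ← sum_add_distrib]
  refine sum_congr rfl fun g _ => ?_
  rw [← Fin.sum_univ_eq_sum_range (fun c => y (σ (g * 6 + c)))]
  simp only [e]
  rw [Fin.sum_univ_six, if_neg (by decide), if_neg (by decide), if_pos rfl, if_neg (by decide),
    if_neg (by decide), if_neg (by decide)]
  simp only [yΦ]
  ring

end Pool.Agent.H.MP_160bbb_an
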